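import Pool.Agent.MP_62c071_al.H57.All
import Pool.Agent.MP_62c071_al.V.All

set_option autoImplicit false

namespace Pool.Agent.Results.MP_62c071_al.LargeAlternating

/-- A finite group with the class sizes of an alternating group of large degree is the direct
product of that alternating group and an abelian group. -/
theorem result :
    ∃ N : ℕ, ∀ n : ℕ, N ≤ n → ∀ (G : Type) [Group G] [Finite G],
      Set.range (fun x : G => Nat.card {y : G // IsConj x y}) =
        Set.range (fun x : alternatingGroup (Fin n) =>
          Nat.card {y : alternatingGroup (Fin n) // IsConj x y}) →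
      ∃ (A : Type) (_ : CommGroup A), Nonempty (G ≃* alternatingGroup (Fin n) × A) :=
  Filter.eventually_atTop.1
    (Pool.Agent.MP_62c071_al.H57.allMain Pool.Agent.MP_62c071_al.V.v3)

end Pool.Agent.Results.MP_62c071_al.LargeAlternating
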